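import Pool.Agent.Q214.PP.F
import Pool.Agent.Q214.PP.TS

set_option autoImplicit false

/-!
# A Borel type semigroup without plain paradoxes
-/

namespace Pool.Agent.Results.MP_cafa5e_lc.NoPlainParadoxes

open Pool.Agent.Q214.PP

/-- A commutative monoid, preordered by `α ≤ β` iff `β = α + γ` for some `γ`, has plain paradoxes
if `n α ≤ m α` for some `m < n` implies `2 α ≤ α`. -/
def HasPlainParadoxes (S : Type) [AddCommMonoid S] : Prop :=
  ∀ (α : S) (n m : ℕ), m < n → (∃ γ, m • α = n • α + γ) → ∃ γ, α = 2 • α + γ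

theorem measurableSet_copies {Z : Type} [MeasurableSpace Z] (n : ℕ) {S : Set Z}
    (hS : MeasurableSet S) : MeasurableSet (copies n S) :=
  (measurable_fst hS).inter (measurable_snd (MeasurableSet.of_discrete (s := {k : ℕ | k < n})))

/-- the copies of a set as a bounded Borel set -/
def cop {Z : Type} [MeasurableSpace Z] (n : ℕ) {S : Set Z} (hS : MeasurableSet S) : BB Z where
  s := copies n S
  meas := measurableSet_copies n hS
  bdd := ⟨n, fun _ hp => le_of_lt hp.2⟩

theorem mk_cop (Γ : Type) {Z : Type} [Group Γ] [MeasurableSpace Z] [MulAction Γ Z]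
    [MeasurableConstSMul Γ Z] (n : ℕ) {S : Set Z} (hS : MeasurableSet S) :
    TypeSemigroup.mk Γ (cop n hS) = n • TypeSemigroup.mk Γ (cop 1 hS) := by
  induction n with
  | zero =>
    rw [zero_nsmul, ← mk_empty, mk_eq]
    have e : (cop 0 hS).s = (BB.empty : BB Z).s := by
      ext p
      exact ⟨fun h => absurd h.2 (Nat.not_lt_zero _), fun h => absurd h (Set.notMem_empty p)⟩
    rw [e]
    exact (EQ.refl Γ (BB.empty : BB Z).meas BB.empty.bdd).equidec (hm Γ Z)
  | succ n ih =>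
    rw [succ_nsmul, ← ih, mk_add, mk_eq]
    have e : (cop (n + 1) hS).s = (cop n hS).s ∪ sh n (cop 1 hS).s := by
      ext ⟨x, k⟩
      constructor
      · rintro ⟨h1, h2⟩
        have h2' : k < n + 1 := h2
        by_cases h : k < n
        · exact Or.inl ⟨h1, h⟩
        · refine Or.inr ⟨?_, h1, ?_⟩
          · show n ≤ k
            omega
          · show k - n < 1
            omega
      · rintro (⟨h1, h2⟩ | ⟨h1, h2, h3⟩)
        · exact ⟨h1, Nat.lt_succ_of_lt h2⟩
        · refine ⟨h2, ?_⟩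
          have h1' : n ≤ k := h1
          have h3' : k - n < 1 := h3
          show k < n + 1
          omega
    rw [e]
    refine EQ.equidec (hm Γ Z) (EQ.union (EQ.refl Γ (cop n hS).meas (cop n hS).bdd)
      (eq_sh_sh Γ _ _ _) ?_ (disj_sh _ _))
    rw [Set.disjoint_left]
    rintro p ⟨_, h2⟩ ⟨h3, _⟩
    omega

instance : MeasurableConstSMul (FreeGroup (Fin 2)) X where
  measurable_const_smul := measurable_smul'

/-- There is a Borel action of the free group `F` on two generators on a standard Borel space `X`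
and an element `α` of the type semigroup with `3 α = 2 α` but not `2 α ≤ α`; so the type semigroup
does not have plain paradoxes. The element `α` is the class of `A × {0}` for a Borel set `A ⊆ X`:
the set `A × {0, 1, 2}` is equidecomposable with `A × {0, 1}`, but `A × {0, 1}` is not
equidecomposable with any subset of `A × {0}`. -/
theorem result : ∃ (X : Type) (_ : MeasurableSpace X) (_ : StandardBorelSpace X)
    (_ : MulAction (FreeGroup (Fin 2)) X) (_ : MeasurableConstSMul (FreeGroup (Fin 2)) X),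
    ¬ HasPlainParadoxes (TypeSemigroup (FreeGroup (Fin 2)) X) ∧
    (∃ α : TypeSemigroup (FreeGroup (Fin 2)) X, 3 • α = 2 • α ∧ ¬ ∃ γ, α = 2 • α + γ) ∧
    ∃ A : Set X, MeasurableSet A ∧
      Equidec (FreeGroup (Fin 2)) {p : X × ℕ | p.1 ∈ A ∧ p.2 < 3} {p : X × ℕ | p.1 ∈ A ∧ p.2 < 2} ∧
      ¬ ∃ C ⊆ {p : X × ℕ | p.1 ∈ A ∧ p.2 = 0},
        Equidec (FreeGroup (Fin 2)) {p : X × ℕ | p.1 ∈ A ∧ p.2 < 2} C := by
  have key : ¬ ∃ C ⊆ {p : X × ℕ | p.1 ∈ AX ∧ p.2 = 0},
      Equidec (FreeGroup (Fin 2)) {p : X × ℕ | p.1 ∈ AX ∧ p.2 < 2} C := by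
    rintro ⟨C, hC, h⟩
    refine not_double C (fun p hp => ⟨(hC hp).1, ?_⟩) h
    have h0 : p.2 = 0 := (hC hp).2
    omega
  have h32 : Equidec (FreeGroup (Fin 2)) {p : X × ℕ | p.1 ∈ AX ∧ p.2 < 3}
      {p : X × ℕ | p.1 ∈ AX ∧ p.2 < 2} := eq_three_two.equidec measurable_smul'
  let α : TypeSemigroup (FreeGroup (Fin 2)) X :=
    TypeSemigroup.mk (FreeGroup (Fin 2)) (cop 1 measurableSet_AX)
  have hα : ∀ n : ℕ, n • α = TypeSemigroup.mk (FreeGroup (Fin 2)) (cop n measurableSet_AX) :=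
    fun n => (mk_cop (FreeGroup (Fin 2)) n measurableSet_AX).symm
  have h1 : 3 • α = 2 • α := by
    rw [hα, hα, mk_eq]
    exact h32
  have h2 : ¬ ∃ γ, α = 2 • α + γ := by
    rintro ⟨γ, hγ⟩
    have h3 : TypeSemigroup.LE (2 • α) α := ⟨γ, hγ⟩
    rw [hα 2] at h3
    obtain ⟨C, hC, h4⟩ := le_iff (FreeGroup (Fin 2)) h3
    exact key ⟨C, fun p hp => ⟨(hC hp).1, Nat.lt_one_iff.1 (hC hp).2⟩, h4⟩
  refine ⟨X, inferInstance, inferInstance, inferInstance, inferInstance, fun h => ?_,
    ⟨α, h1, h2⟩, AX, measurableSet_AX, h32, key⟩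
  exact h2 (h α 3 2 (by norm_num) ⟨0, by rw [h1, add_zero]⟩)

end Pool.Agent.Results.MP_cafa5e_lc.NoPlainParadoxes
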